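import Pool.Agent.Lib.MP_a1df92_al.Maximal

set_option autoImplicit false

namespace Pool.Agent.MP_a1df92_al

abbrev F3 := ZMod 3
abbrev T3 := TensorAlgebra (ZMod 3) V3

/-- the basis vectors -/
def e (i : Fin 3) : V3 := Pi.single i 1

/-- The triple bracket in an arbitrary ring. -/
def B {A : Type} [Ring A] (x y z : A) : A := (x * y - y * x) * z - z * (x * y - y * x)

/-- The double bracket in an arbitrary ring. -/
def C {A : Type} [Ring A] (x y : A) : A := x * y - y * x

theorem map_B {A A' : Type} [Ring A] [Ring A'] (f : A →+* A') (x y z : A) :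
    f (B x y z) = B (f x) (f y) (f z) := by
  simp only [B, map_sub, map_mul]

theorem map_C {A A' : Type} [Ring A] [Ring A'] (f : A →+* A') (x y : A) :
    f (C x y) = C (f x) (f y) := by
  simp only [C, map_sub, map_mul]

/-- the generators of the tensor algebra -/
noncomputable def X (i : Fin 3) : T3 := TensorAlgebra.ι F3 (e i)

theorem act_ι (g : V3 ≃ₗ[ZMod 3] V3) (v : V3) : act g (TensorAlgebra.ι F3 v) = TensorAlgebra.ι F3 (g v) := by
  simp [act]

theorem act_B (g : V3 ≃ₗ[ZMod 3] V3) (x y z : T3) : act g (B x y z) = B (act g x) (act g y) (act g z) :=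
  map_B (act g).toRingHom x y z

theorem act_C (g : V3 ≃ₗ[ZMod 3] V3) (x y : T3) : act g (C x y) = C (act g x) (act g y) :=
  map_C (act g).toRingHom x y

theorem liePower_one : liePower F3 V3 1 = Submodule.span F3 {x | ∃ v, x = TensorAlgebra.ι F3 v} := by
  unfold liePower
  congr 1
  ext x
  constructor
  · rintro ⟨v, ws, h, rfl⟩
    have : ws = [] := List.length_eq_zero_iff.mp (by omega)
    subst this
    exact ⟨v, rfl⟩
  · rintro ⟨v, rfl⟩
    exact ⟨v, [], rfl, rfl⟩

theorem liePower_two : liePower F3 V3 2 = Submodule.span F3 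
    {x | ∃ v w, x = C (TensorAlgebra.ι F3 v) (TensorAlgebra.ι F3 w)} := by
  unfold liePower
  congr 1
  ext x
  constructor
  · rintro ⟨v, ws, h, rfl⟩
    have : ws.length = 1 := by omega
    obtain ⟨w, rfl⟩ := List.length_eq_one_iff.mp this
    exact ⟨v, w, rfl⟩
  · rintro ⟨v, w, rfl⟩
    exact ⟨v, [w], rfl, rfl⟩

theorem liePower_three : liePower F3 V3 3 = Submodule.span F3 
    {x | ∃ u v w, x = B (TensorAlgebra.ι F3 u) (TensorAlgebra.ι F3 v) (TensorAlgebra.ι F3 w)} := by
  unfold liePower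
  congr 1
  ext x
  constructor
  · rintro ⟨v, ws, h, rfl⟩
    have : ws.length = 2 := by omega
    obtain ⟨w, w', rfl⟩ := List.length_eq_two.mp this
    exact ⟨v, w, w', rfl⟩
  · rintro ⟨v, w, w', rfl⟩
    exact ⟨v, [w, w'], rfl, rfl⟩

/-- The linear map used for the coefficient functional. -/
def cm (i j k : Fin 3) : V3 →ₗ[F3] Matrix (Fin 4) (Fin 4) F3 where
  toFun v := !![0, v i, 0, 0; 0, 0, v j, 0; 0, 0, 0, v k; 0, 0, 0, 0]
  map_add' v w := by
    ext a b
    fin_cases a <;> fin_cases b <;> simp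
  map_smul' c v := by
    ext a b
    fin_cases a <;> fin_cases b <;> simp

/-- The coefficient of `e_i ⊗ e_j ⊗ e_k`. -/
noncomputable def coef (i j k : Fin 3) : T3 →ₗ[F3] F3 where
  toFun x := (TensorAlgebra.lift F3 (cm i j k) x) 0 3
  map_add' x y := by simp
  map_smul' c x := by simp

theorem coef_mul (i j k : Fin 3) (u v w : V3) : 
    coef i j k (TensorAlgebra.ι F3 u * TensorAlgebra.ι F3 v * TensorAlgebra.ι F3 w) = u i * v j * w k := by
  show (TensorAlgebra.lift F3 (cm i j k) _) 0 3 = _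
  rw [map_mul, map_mul, TensorAlgebra.lift_ι_apply, TensorAlgebra.lift_ι_apply, TensorAlgebra.lift_ι_apply]
  simp [cm, Matrix.mul_apply, Fin.sum_univ_succ]

theorem coef_B (i j k : Fin 3) (u v w : V3) : 
    coef i j k (B (TensorAlgebra.ι F3 u) (TensorAlgebra.ι F3 v) (TensorAlgebra.ι F3 w)) = 
      u i * v j * w k - v i * u j * w k - w i * u j * v k + w i * v j * u k := by
  have : B (TensorAlgebra.ι F3 u) (TensorAlgebra.ι F3 v) (TensorAlgebra.ι F3 w) = 
      TensorAlgebra.ι F3 u * TensorAlgebra.ι F3 v * TensorAlgebra.ι F3 w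
      - TensorAlgebra.ι F3 v * TensorAlgebra.ι F3 u * TensorAlgebra.ι F3 w
      - TensorAlgebra.ι F3 w * TensorAlgebra.ι F3 u * TensorAlgebra.ι F3 v
      + TensorAlgebra.ι F3 w * TensorAlgebra.ι F3 v * TensorAlgebra.ι F3 u := by
    unfold B; noncomm_ring
  rw [this, map_add, map_sub, map_sub, coef_mul, coef_mul, coef_mul, coef_mul]

end Pool.Agent.MP_a1df92_al
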