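import Mathlib

set_option autoImplicit false

namespace Pool.Agent.MP_a1df92_al

section general

variable (F V : Type) [Field F] [AddCommGroup V] [Module F V]

/-- The left-normed bracket `[v, w₁, …, w_m] = [[…[v, w₁], …], w_m]` in the tensor algebra `T(V)`,
where `[x, y] = x * y - y * x`. -/
def bracket (v : V) (ws : List V) : TensorAlgebra F V :=
  ws.foldl (fun x w => x * TensorAlgebra.ι F w - TensorAlgebra.ι F w * x) (TensorAlgebra.ι F v)

/-- The Lie power `L^k V`: the span of all brackets `[v₁, …, v_k]` in the tensor algebra. -/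
def liePower (k : ℕ) : Submodule F (TensorAlgebra F V) :=
  Submodule.span F {x | ∃ (v : V) (ws : List V), ws.length + 1 = k ∧ x = bracket F V v ws}

variable {F V}

/-- The action of `g ∈ GL(V)` on the tensor algebra `T(V)`: the algebra endomorphism extending
`g` on `V`. -/
def act (g : V ≃ₗ[F] V) : TensorAlgebra F V →ₐ[F] TensorAlgebra F V :=
  TensorAlgebra.lift F ((TensorAlgebra.ι F).comp (g : V →ₗ[F] V))

/-- `N` is invariant under the subgroup `H` of `GL(V)`. -/
def Invariant (H : Subgroup (V ≃ₗ[F] V)) (N : Submodule F (TensorAlgebra F V)) : Prop :=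
  ∀ g ∈ H, ∀ x ∈ N, act g x ∈ N

/-- `N` is an irreducible `F H`-submodule of `T(V)`. -/
def Irred (H : Subgroup (V ≃ₗ[F] V)) (N : Submodule F (TensorAlgebra F V)) : Prop :=
  N ≠ ⊥ ∧ Invariant H N ∧ ∀ N', N' ≤ N → Invariant H N' → N' = ⊥ ∨ N' = N

/-- The condition `(∗_n)` for the subgroup `H` of `GL(V)`: for `1 ≤ k ≤ n - 1`, every irreducible
`F GL(V)`-submodule of `L^k V` is irreducible as an `F H`-module. -/
def Star (H : Subgroup (V ≃ₗ[F] V)) (n : ℕ) : Prop :=
  ∀ k, 1 ≤ k → k ≤ n - 1 → ∀ N, N ≤ liePower F V k → Irred ⊤ N → Irred H N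

/-- `M` is a direct sum of irreducible `F H`-submodules. -/
def CompletelyReducible (H : Subgroup (V ≃ₗ[F] V)) (M : Submodule F (TensorAlgebra F V)) : Prop :=
  ∃ (I : Type) (N : I → Submodule F (TensorAlgebra F V)),
    (∀ i, Irred H (N i)) ∧ iSupIndep N ∧ ⨆ i, N i = M

/-- The `F H`-submodules of `M` form a chain. -/
def Uniserial (H : Subgroup (V ≃ₗ[F] V)) (M : Submodule F (TensorAlgebra F V)) : Prop :=
  ∀ N₁ N₂, N₁ ≤ M → N₂ ≤ M → Invariant H N₁ → Invariant H N₂ → N₁ ≤ N₂ ∨ N₂ ≤ N₁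

end general

/-- The vectors of `(F₃)³` lying on one of the three coordinate axes. -/
def axes : Set (Fin 3 → ZMod 3) := {v | ∀ i j, i ≠ j → v i = 0 ∨ v j = 0}

instance : DecidablePred (· ∈ axes) := fun v =>
  inferInstanceAs (Decidable (∀ i j, i ≠ j → v i = 0 ∨ v j = 0))

/-- The monomial subgroup `{±1} wr S₃` of `GL₃(F₃)`: the group of all `g` mapping the set of
the three coordinate axes to itself. -/
def monomialGroup : Subgroup ((Fin 3 → ZMod 3) ≃ₗ[ZMod 3] (Fin 3 → ZMod 3)) where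
  carrier := {g | ∀ v, g v ∈ axes ↔ v ∈ axes}
  mul_mem' := fun {a b} ha hb v => (ha (b v)).trans (hb v)
  one_mem' := fun v => Iff.rfl
  inv_mem' := fun {a} ha v => by
    have h := ha (a⁻¹ v)
    rw [show a (a⁻¹ v) = v from a.apply_symm_apply v] at h
    exact h.symm

end Pool.Agent.MP_a1df92_al
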