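import Pool.Agent.Lib.MP_a1df92_al.Rep

set_option autoImplicit false

namespace Pool.Agent.MP_a1df92_al

theorem mono_data (g : V3 ≃ₗ[ZMod 3] V3) (hg : g ∈ monomialGroup) : ∃ σ : Fin 3 → Fin 3, ∃ s : V3,
    (∀ i, g (e i) = s i • e (σ i)) ∧ ∀ i j, i ≠ j → σ i ≠ σ j := by
  have h : ∀ i, ∃ j, ∃ c : ZMod 3, g (e i) = c • e j := by
    intro i
    obtain ⟨j, c, hjc⟩ := axes_single _ ((hg (e i)).mpr (single_axes i 1))
    refine ⟨j, c, ?_⟩
    rw [hjc]
    unfold e
    rw [← Pi.single_smul]; simp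
  choose σ s hs using h
  refine ⟨σ, s, hs, ?_⟩
  intro i j hij hσ
  have hsi : s i ≠ 0 := by
    intro h0
    have := hs i
    rw [h0, zero_smul] at this
    have h1 : e i = 0 := g.injective (by rw [this, map_zero])
    have h2 : (e i) i = 0 := by rw [h1]; rfl
    simp [e] at h2
  have h1 : g (s j • e i) = g (s i • e j) := by
    rw [map_smul, map_smul, hs, hs, hσ, smul_comm]
  have h2 := g.injective h1
  have h3 : (s j • e i) j = (s i • e j) j := by rw [h2]
  simp [e, hij] at h3
  have h4 : (s i : F3) = 0 := by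
    have : (Pi.single i (1:F3) : V3) j = 0 := Pi.single_eq_of_ne (Ne.symm hij) _
    simpa [this] using h3.symm
  exact hsi h4

theorem act_mono {g : V3 ≃ₗ[ZMod 3] V3} {σ : Fin 3 → Fin 3} {s : V3} 
    (h : ∀ i, g (e i) = s i • e (σ i)) (i : Fin 3) : act g (X i) = s i • X (σ i) := by
  unfold X
  rw [act_ι, h, map_smul]

/-- the one-dimensional submodule spanned by `c` -/
noncomputable def U : Submodule F3 T3 := Submodule.span F3 {a + b}

theorem U_inv : Invariant monomialGroup U := by
  intro g hg x hx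
  obtain ⟨σ, s, h, hσ⟩ := mono_data g hg
  obtain ⟨r, rfl⟩ := Submodule.mem_span_singleton.mp hx
  rw [map_smul]
  apply U.smul_mem
  have h1 := c_eq (σ 0) (σ 1) (σ 2) (hσ 0 1 (by decide)) (hσ 0 2 (by decide)) (hσ 1 2 (by decide))
  have ha : act g a = (s 0 * s 1 * s 2) • B (X (σ 0)) (X (σ 1)) (X (σ 2)) := by
    unfold a
    rw [act_B, act_mono h, act_mono h, act_mono h]
    simp only [B_smul1, B_smul2, B_smul3, smul_smul]
    congr 1; ring
  have hb : act g b = (s 0 * s 1 * s 2) • B (X (σ 0)) (X (σ 2)) (X (σ 1)) := by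
    unfold b
    rw [act_B, act_mono h, act_mono h, act_mono h]
    simp only [B_smul1, B_smul2, B_smul3, smul_smul]
    congr 1; ring
  have h2 : act g (a + b) = (s 0 * s 1 * s 2) • (a + b) := by
    rw [map_add, ha, hb, ← smul_add, h1]
  rw [h2]
  exact U.smul_mem _ (Submodule.mem_span_singleton_self _)

/-- the submodule spanned by the `[e_i, e_j, e_j]` -/
noncomputable def Y : Submodule F3 T3 := Submodule.span F3 {x | ∃ i j, x = E i j}

theorem Y_inv : Invariant monomialGroup Y := by
  intro g hg x hx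
  obtain ⟨σ, s, h, hσ⟩ := mono_data g hg
  unfold Y at hx
  induction hx using Submodule.span_induction with
  | mem x hx =>
    obtain ⟨i, j, rfl⟩ := hx
    unfold E
    rw [act_B, act_mono h, act_mono h]
    simp only [B_smul1, B_smul2, B_smul3]
    exact Y.smul_mem _ (Y.smul_mem _ (Y.smul_mem _ (Submodule.subset_span ⟨_, _, rfl⟩)))
  | zero => rw [map_zero]; exact Y.zero_mem
  | add x y _ _ hx hy => rw [map_add]; exact Y.add_mem hx hy
  | smul c x _ hx => rw [map_smul]; exact Y.smul_mem _ hx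

theorem coef_a (i j k : Fin 3) : coef i j k a = 
    (e 0) i * (e 1) j * (e 2) k - (e 1) i * (e 0) j * (e 2) k - (e 2) i * (e 0) j * (e 1) k 
      + (e 2) i * (e 1) j * (e 0) k := coef_B i j k _ _ _

theorem coef_b (i j k : Fin 3) : coef i j k b = 
    (e 0) i * (e 2) j * (e 1) k - (e 2) i * (e 0) j * (e 1) k - (e 1) i * (e 0) j * (e 2) k 
      + (e 1) i * (e 2) j * (e 0) k := coef_B i j k _ _ _

theorem coef_E (i j k l m : Fin 3) : coef i j k (E l m) = 
    (e l) i * (e m) j * (e m) k - (e m) i * (e l) j * (e m) k - (e m) i * (e l) j * (e m) k 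
      + (e m) i * (e m) j * (e l) k := coef_B i j k _ _ _

theorem c_ne : a + b ≠ 0 := by
  intro h
  have h1 : coef 0 1 2 (a + b) = 0 := by rw [h, map_zero]
  rw [map_add, coef_a, coef_b] at h1
  revert h1
  decide

theorem E01_not_U : E 0 1 ∉ U := by
  intro h
  obtain ⟨r, hr⟩ := Submodule.mem_span_singleton.mp h
  have h1 : coef 0 1 1 (E 0 1) = 0 := by
    rw [← hr, map_smul, map_add, coef_a, coef_b]
    clear hr
    revert r
    decide
  rw [coef_E] at h1
  revert h1
  decide

theorem a_not_U : a ∉ U := by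
  intro h
  obtain ⟨r, hr⟩ := Submodule.mem_span_singleton.mp h
  have h1 : coef 0 1 2 a - coef 0 2 1 a = 0 := by
    rw [← hr, map_smul, map_smul, map_add, map_add, coef_a, coef_b, coef_a, coef_b]
    clear hr
    revert r
    decide
  rw [coef_a, coef_a] at h1
  revert h1
  decide

theorem c_not_Y : a + b ∉ Y := by
  intro h
  have key : ∀ y ∈ Y, coef 0 1 2 y = 0 := by
    intro y hy
    unfold Y at hy
    induction hy using Submodule.span_induction with
    | mem x hx =>
      obtain ⟨i, j, rfl⟩ := hx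
      rw [coef_E]
      revert i j
      decide
    | zero => exact map_zero _
    | add x y _ _ hx hy => rw [map_add, hx, hy, add_zero]
    | smul c x _ hx => rw [map_smul, hx, smul_zero]
  have h1 := key _ h
  rw [map_add, coef_a, coef_b] at h1
  revert h1
  decide

theorem B_mem_L3 (i j k : Fin 3) : B (X i) (X j) (X k) ∈ liePower F3 V3 3 := by
  rw [liePower_three]
  exact Submodule.subset_span ⟨_, _, _, rfl⟩

theorem U_le : U ≤ liePower F3 V3 3 := by
  unfold U
  rw [Submodule.span_singleton_le_iff_mem]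
  exact Submodule.add_mem _ (B_mem_L3 _ _ _) (B_mem_L3 _ _ _)

theorem Y_le : Y ≤ liePower F3 V3 3 := by
  unfold Y
  rw [Submodule.span_le]
  rintro x ⟨i, j, rfl⟩
  exact B_mem_L3 _ _ _

theorem not_uniserial : ¬ Uniserial monomialGroup (liePower F3 V3 3) := by
  intro h
  rcases h U Y U_le Y_le U_inv Y_inv with h1 | h1
  · exact c_not_Y (h1 (Submodule.mem_span_singleton_self _))
  · exact E01_not_U (h1 (Submodule.subset_span ⟨0, 1, rfl⟩))

theorem E_mem_M (i j : Fin 3) : E i j ∈ M := Submodule.subset_span ⟨_, _, rfl⟩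

theorem M_inv : Invariant ⊤ M := by
  intro g hg x hx
  unfold M at hx
  induction hx using Submodule.span_induction with
  | mem x hx =>
    obtain ⟨v, w, rfl⟩ := hx
    rw [act_B, act_ι, act_ι]
    exact Submodule.subset_span ⟨_, _, rfl⟩
  | zero => rw [map_zero]; exact M.zero_mem
  | add x y _ _ hx hy => rw [map_add]; exact M.add_mem hx hy
  | smul c x _ hx => rw [map_smul]; exact M.smul_mem _ hx

theorem row_eq (α : Fin 3 → Fin 3 → F3) (i j k : Fin 3) (hij : i ≠ j) (hik : i ≠ k) (hjk : j ≠ k) :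
    row α i = α i j • E i j + α i k • E i k := by
  unfold row
  rw [Fin.sum_univ_three]
  have h := E_self i
  revert h
  fin_cases i <;> fin_cases j <;> fin_cases k <;>
    first | exact absurd rfl hij | exact absurd rfl hik | exact absurd rfl hjk 
          | (intro h; simp at h; simp [h]; done) | (intro h; simp at h; simp [h]; rw [add_comm])

theorem c_of_row {N : Submodule F3 T3} (hN : Invariant ⊤ N) (α : Fin 3 → Fin 3 → F3) (i : Fin 3) 
    (h : row α i ∈ N) (h0 : row α i ≠ 0) : a + b ∈ N := by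
  obtain ⟨j, k, hij, hik, hjk⟩ : ∃ j k : Fin 3, i ≠ j ∧ i ≠ k ∧ j ≠ k := by
    clear h h0; revert i; decide
  rw [row_eq α i j k hij hik hjk] at h h0
  by_cases hk : α i k = 0
  · have hj : α i j ≠ 0 := by
      intro hj
      rw [hk, hj] at h0
      simp at h0
    rw [add_comm] at h
    exact c_of_E2 hN i k j hik hij (Ne.symm hjk) _ _ hj h
  · exact c_of_E2 hN i j k hij hik hjk _ _ hk h

theorem c_of_ne {N : Submodule F3 T3} (hN : Invariant ⊤ N) (hNM : N ≤ M) (h0 : N ≠ ⊥) : a + b ∈ N := by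
  obtain ⟨y, hy, hy0⟩ := (Submodule.ne_bot_iff N).mp h0
  obtain ⟨α, γ, rfl⟩ := M_rep y (hNM hy)
  obtain ⟨h1, h2⟩ := mem_parts (fun g _ x hx => hN g trivial x hx) hy
  by_cases hγ : γ = 0
  · have : ∃ i, row α i ≠ 0 := by
      by_contra hcon
      push Not at hcon
      apply hy0
      rw [rep_eq, hcon, hcon, hcon, hγ]
      simp
    obtain ⟨i, hi⟩ := this
    exact c_of_row hN α i (h2 i) hi
  · rw [← smul_add] at h1
    exact (N.smul_mem_iff hγ).mp h1

theorem M_irred : Irred ⊤ M := by
  refine ⟨?_, M_inv, ?_⟩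
  · intro h
    have h1 := E_mem_M 0 1
    rw [h, Submodule.mem_bot] at h1
    exact E01_not_U (h1 ▸ U.zero_mem)
  · intro N hNM hN
    by_cases h0 : N = ⊥
    · exact Or.inl h0
    right
    apply le_antisymm hNM
    have hc := c_of_ne hN hNM h0
    intro y hy
    obtain ⟨α, γ, rfl⟩ := M_rep y hy
    unfold rep
    refine N.add_mem (N.sum_mem fun i _ => N.sum_mem fun j _ => N.smul_mem _ ?_) ?_
    · by_cases hij : i = j
      · rw [hij, E_self]; exact N.zero_mem
      · exact E_of_c hN hc i j hij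
    · rw [← smul_add]
      exact N.smul_mem _ hc

theorem c_mem_M : a + b ∈ M := c_of_ne M_inv le_rfl M_irred.1

theorem M_not_irred : ¬ Irred monomialGroup M := by
  rintro ⟨_, _, h⟩
  rcases h U (by unfold U; rw [Submodule.span_singleton_le_iff_mem]; exact c_mem_M) U_inv with h1 | h1
  · have h2 : a + b ∈ U := Submodule.mem_span_singleton_self _
    rw [h1, Submodule.mem_bot] at h2
    exact c_ne h2
  · have h2 := E_mem_M 0 1
    rw [← h1] at h2
    exact E01_not_U h2

theorem not_star_four : ¬ Star (F := F3) (V := V3) monomialGroup 4 := fun h =>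
  M_not_irred (h 3 (by norm_num) (by norm_num) M M_le M_irred)

/-- permutations of the coordinates -/
def pe (i j : Fin 3) : V3 ≃ₗ[ZMod 3] V3 := LinearEquiv.funCongrLeft (ZMod 3) (ZMod 3) (Equiv.swap i j)

theorem pe_e : ∀ i j k : Fin 3, pe i j (e k) = e (Equiv.swap i j k) := by
  intro i j k
  show (e k) ∘ (Equiv.swap i j) = _
  revert i j k
  decide

theorem pe_mem (i j : Fin 3) : pe i j ∈ monomialGroup := by
  apply mem_monomial_of'
  intro k
  have := pe_e i j k
  unfold e at this
  rw [this]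
  exact single_axes _ _

theorem act_pe (i j k : Fin 3) : act (pe i j) (X k) = X (Equiv.swap i j k) := by
  unfold X
  rw [act_ι, pe_e]

/-- An irreducible submodule of `L³V` for the monomial group is in the kernel of the functional
`coef 0 1 2 - coef 0 2 1`. -/
theorem irred_ker {N : Submodule F3 T3} (hN : Irred monomialGroup N) (hle : N ≤ liePower F3 V3 3) 
    (y : T3) (hy : y ∈ N) : coef 0 1 2 y - coef 0 2 1 y = 0 := by
  obtain ⟨_, hinv, hirr⟩ := hN
  obtain ⟨α, γ₁, γ₂, rfl⟩ := L3_rep y (hle hy)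
  obtain ⟨hz, -⟩ := mem_parts hinv hy
  have hcoef : coef 0 1 2 (rep α γ₁ γ₂) - coef 0 2 1 (rep α γ₁ γ₂) = γ₁ - γ₂ := by
    unfold rep
    simp only [map_add, map_sum, map_smul, coef_a, coef_b, coef_E]
    simp [e, Fin.sum_univ_three]
  rw [hcoef]
  by_contra hne
  have h1 := N.sub_mem hz (hinv _ (pe_mem 1 2) _ hz)
  have ha : act (pe 1 2) a = b := by
    unfold a b
    rw [act_B, act_pe, act_pe, act_pe]
    rfl
  have hb : act (pe 1 2) b = a := by
    unfold a b
    rw [act_B, act_pe, act_pe, act_pe]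
    rfl
  have h2 : γ₁ • a + γ₂ • b - act (pe 1 2) (γ₁ • a + γ₂ • b) = (γ₁ - γ₂) • (a - b) := by
    rw [map_add, map_smul, map_smul, ha, hb]
    module
  rw [h2] at h1
  have h3 : a - b ∈ N := (N.smul_mem_iff hne).mp h1
  have h4 := hinv _ (pe_mem 0 1) _ h3
  have ha' : act (pe 0 1) a = - a := by
    unfold a
    rw [act_B, act_pe, act_pe, act_pe]
    exact B_swap _ _ _
  have hb' : act (pe 0 1) b = b - a := by
    unfold a b
    rw [act_B, act_pe, act_pe, act_pe]
    exact B_120 _ _ _
  have h5 : act (pe 0 1) (a - b) = - b := by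
    rw [map_sub, ha', hb']
    abel
  rw [h5] at h4
  have hbN : b ∈ N := by
    have := N.neg_mem h4
    rwa [neg_neg] at this
  have haN : a ∈ N := by
    have := N.add_mem h3 hbN
    rwa [sub_add_cancel] at this
  have hUN : U ≤ N := by
    unfold U
    rw [Submodule.span_singleton_le_iff_mem]
    exact N.add_mem haN hbN
  rcases hirr U hUN U_inv with h6 | h6
  · have h7 : a + b ∈ U := Submodule.mem_span_singleton_self _
    rw [h6, Submodule.mem_bot] at h7
    exact c_ne h7
  · rw [← h6] at haN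
    exact a_not_U haN

theorem not_cr : ¬ CompletelyReducible monomialGroup (liePower F3 V3 3) := by
  rintro ⟨I, N, hirr, _, hsup⟩
  let ψ : T3 →ₗ[F3] F3 := coef 0 1 2 - coef 0 2 1
  have hker : liePower F3 V3 3 ≤ LinearMap.ker ψ := by
    rw [← hsup]
    apply iSup_le
    intro i y hy
    exact irred_ker (hirr i) (by rw [← hsup]; exact le_iSup N i) y hy
  have h1 : a ∈ LinearMap.ker ψ := hker (B_mem_L3 0 1 2)
  have h2 : coef 0 1 2 a - coef 0 2 1 a = 0 := h1
  rw [coef_a, coef_a] at h2
  revert h2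
  decide

/-- `L¹V` is irreducible for the monomial group. -/
theorem L1 {N : Submodule F3 T3} (hN : Invariant monomialGroup N) (hle : N ≤ liePower F3 V3 1) :
    N = ⊥ ∨ N = liePower F3 V3 1 := by
  by_cases h0 : N = ⊥
  · exact Or.inl h0
  right
  apply le_antisymm hle
  obtain ⟨y, hy, hy0⟩ := (Submodule.ne_bot_iff N).mp h0
  have hrep : ∀ y ∈ liePower F3 V3 1, ∃ v, y = TensorAlgebra.ι F3 v := by
    intro y hy
    rw [liePower_one] at hy
    induction hy using Submodule.span_induction with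
    | mem x hx => exact hx
    | zero => exact ⟨0, (map_zero _).symm⟩
    | add x y _ _ hx hy => 
      obtain ⟨v, rfl⟩ := hx
      obtain ⟨w, rfl⟩ := hy
      exact ⟨v + w, (map_add _ _ _).symm⟩
    | smul c x _ hx =>
      obtain ⟨v, rfl⟩ := hx
      exact ⟨c • v, (map_smul _ _ _).symm⟩
  obtain ⟨v, rfl⟩ := hrep y (hle hy)
  have hv : v ≠ 0 := by rintro rfl; exact hy0 (map_zero _)
  obtain ⟨i, hi⟩ := Function.ne_iff.mp hv
  have h1 := N.sub_mem (hN _ (d_mem i) _ hy) hy
  have h2 : act (d i) (TensorAlgebra.ι F3 v) - TensorAlgebra.ι F3 v = v i • X i := by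
    rw [act_ι, ← map_sub]
    unfold X
    rw [← map_smul]
    congr 1
    have : ∀ (i : Fin 3) (v : V3), reflMap (e i) v - v = v i • e i := by decide +kernel
    exact this i v
  rw [h2] at h1
  have h3 : X i ∈ N := (N.smul_mem_iff hi).mp h1
  have h4 : ∀ j, X j ∈ N := by
    intro j
    have := hN _ (pe_mem i j) _ h3
    rwa [act_pe, Equiv.swap_apply_left] at this
  intro z hz
  obtain ⟨w, rfl⟩ := hrep z hz
  rw [sum_single w, map_add, map_add, map_smul, map_smul, map_smul]
  exact N.add_mem (N.add_mem (N.smul_mem _ (h4 0)) (N.smul_mem _ (h4 1))) (N.smul_mem _ (h4 2))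

noncomputable def D (i j : Fin 3) : T3 := C (X i) (X j)

theorem D_self (i : Fin 3) : D i i = 0 := by simp [D, C]
theorem D_swap (i j : Fin 3) : D j i = - D i j := by simp [D, C]

theorem act_d_D (i j k : Fin 3) (hjk : j ≠ k) : 
    act (d i) (D j k) = if j = i ∨ k = i then - D j k else D j k := by
  unfold D
  rw [act_C, act_d_X, act_d_X]
  by_cases h1 : j = i
  · have h2 : k ≠ i := fun h2 => hjk (h1.trans h2.symm)
    simp [h1, h2, C]
    noncomm_ring
  · by_cases h2 : k = i
    · simp [h1, h2, C]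
      noncomm_ring
    · simp [h1, h2, C]

theorem C_add1 {A : Type} [Ring A] (x x' y : A) : C (x + x') y = C x y + C x' y := by
  unfold C; noncomm_ring
theorem C_add2 {A : Type} [Ring A] (x y y' : A) : C x (y + y') = C x y + C x y' := by
  unfold C; noncomm_ring
theorem C_smul1 (c : F3) (x y : T3) : C (c • x) y = c • C x y := by
  simp only [C, smul_mul_assoc, mul_smul_comm, smul_sub]
theorem C_smul2 (c : F3) (x y : T3) : C x (c • y) = c • C x y := by
  simp only [C, smul_mul_assoc, mul_smul_comm, smul_sub]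

theorem L2_rep (y : T3) (hy : y ∈ liePower F3 V3 2) : 
    ∃ α β γ : F3, y = α • D 0 1 + β • D 1 2 + γ • D 0 2 := by
  rw [liePower_two] at hy
  induction hy using Submodule.span_induction with
  | mem x hx => 
    obtain ⟨v, w, rfl⟩ := hx
    refine ⟨v 0 * w 1 - v 1 * w 0, v 1 * w 2 - v 2 * w 1, v 0 * w 2 - v 2 * w 0, ?_⟩
    conv_lhs => rw [sum_single v, sum_single w]
    simp only [map_add, map_smul]
    change C (v 0 • X 0 + v 1 • X 1 + v 2 • X 2) (w 0 • X 0 + w 1 • X 1 + w 2 • X 2) = _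
    simp only [C_add1, C_add2, C_smul1, C_smul2]
    change w 0 • v 0 • D 0 0 + w 0 • v 1 • D 1 0 + w 0 • v 2 • D 2 0 + 
      (w 1 • v 0 • D 0 1 + w 1 • v 1 • D 1 1 + w 1 • v 2 • D 2 1) + 
      (w 2 • v 0 • D 0 2 + w 2 • v 1 • D 1 2 + w 2 • v 2 • D 2 2) = _
    rw [D_self, D_self, D_self, D_swap 0 1, D_swap 0 2, D_swap 1 2]
    module
  | zero => exact ⟨0, 0, 0, by simp⟩
  | add x y _ _ hx hy => 
    obtain ⟨α, β, γ, rfl⟩ := hx
    obtain ⟨α', β', γ', rfl⟩ := hy
    exact ⟨α + α', β + β', γ + γ', by module⟩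
  | smul c x _ hx =>
    obtain ⟨α, β, γ, rfl⟩ := hx
    exact ⟨c * α, c * β, c * γ, by module⟩

/-- `L²V` is irreducible for the monomial group. -/
theorem L2 {N : Submodule F3 T3} (hN : Invariant monomialGroup N) (hle : N ≤ liePower F3 V3 2) :
    N = ⊥ ∨ N = liePower F3 V3 2 := by
  by_cases h0 : N = ⊥
  · exact Or.inl h0
  right
  apply le_antisymm hle
  obtain ⟨y, hy, hy0⟩ := (Submodule.ne_bot_iff N).mp h0
  obtain ⟨α, β, γ, rfl⟩ := L2_rep y (hle hy)
  have hd : ∀ i, act (d i) (α • D 0 1 + β • D 1 2 + γ • D 0 2) ∈ N := fun i => hN _ (d_mem i) _ hy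
  have e0 := hd 0
  have e1 := hd 1
  have e2 := hd 2
  simp only [map_add, map_smul] at e0 e1 e2
  rw [act_d_D 0 0 1 (by decide), act_d_D 0 1 2 (by decide), act_d_D 0 0 2 (by decide)] at e0
  rw [act_d_D 1 0 1 (by decide), act_d_D 1 1 2 (by decide), act_d_D 1 0 2 (by decide)] at e1
  rw [act_d_D 2 0 1 (by decide), act_d_D 2 1 2 (by decide), act_d_D 2 0 2 (by decide)] at e2
  simp at e0 e1 e2
  have k1 := three_smul_T (α • D 0 1)
  have k2 := three_smul_T (β • D 1 2)
  have k3 := three_smul_T (γ • D 0 2)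
  have f0 : -(β • D 1 2) ∈ N := by
    have := N.add_mem hy e0
    have h : α • D 0 1 + β • D 1 2 + γ • D 0 2 + (-(α • D 0 1) + β • D 1 2 + -(γ • D 0 2)) = 
      -(β • D 1 2) := by linear_combination (norm := module) k2
    rwa [h] at this
  have f1 : -(γ • D 0 2) ∈ N := by
    have := N.add_mem hy e1
    have h : α • D 0 1 + β • D 1 2 + γ • D 0 2 + (-(α • D 0 1) + -(β • D 1 2) + γ • D 0 2) = 
      -(γ • D 0 2) := by linear_combination (norm := module) k3
    rwa [h] at this
  have f2 : -(α • D 0 1) ∈ N := by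
    have := N.add_mem hy e2
    have h : α • D 0 1 + β • D 1 2 + γ • D 0 2 + (α • D 0 1 + -(β • D 1 2) + -(γ • D 0 2)) = 
      -(α • D 0 1) := by linear_combination (norm := module) k1
    rwa [h] at this
  have f3 : ∃ i j : Fin 3, i ≠ j ∧ D i j ∈ N := by
    by_cases hα : α = 0
    · by_cases hβ : β = 0
      · by_cases hγ : γ = 0
        · exfalso; apply hy0; rw [hα, hβ, hγ]; simp
        · exact ⟨0, 2, by decide, (N.smul_mem_iff hγ).mp (by simpa using f1)⟩
      · exact ⟨1, 2, by decide, (N.smul_mem_iff hβ).mp (by simpa using f0)⟩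
    · exact ⟨0, 1, by decide, (N.smul_mem_iff hα).mp (by simpa using f2)⟩
  have act_pe_D : ∀ i j k l, D k l ∈ N → D (Equiv.swap i j k) (Equiv.swap i j l) ∈ N := by
    intro i j k l h
    have := hN _ (pe_mem i j) _ h
    unfold D at this
    rwa [act_C, act_pe, act_pe] at this
  have f4 : ∀ k l, k ≠ l → D k l ∈ N := by
    obtain ⟨i, j, hij, h⟩ := f3
    intro k l hkl
    have h1 := act_pe_D i k i j h
    rw [Equiv.swap_apply_left] at h1
    have h2 := act_pe_D (Equiv.swap i k j) l _ _ h1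
    rw [Equiv.swap_apply_left] at h2
    have h3 : Equiv.swap (Equiv.swap i k j) l k = k := by
      apply Equiv.swap_apply_of_ne_of_ne _ hkl
      intro h3
      apply hij
      have := congrArg (Equiv.swap i k) h3
      rw [Equiv.swap_apply_self, Equiv.swap_apply_right] at this
      exact this
    rwa [h3] at h2
  intro z hz
  obtain ⟨α', β', γ', rfl⟩ := L2_rep z hz
  exact N.add_mem (N.add_mem (N.smul_mem _ (f4 0 1 (by decide))) (N.smul_mem _ (f4 1 2 (by decide)))) 
    (N.smul_mem _ (f4 0 2 (by decide)))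

theorem star_three : Star (F := F3) (V := V3) monomialGroup 3 := by
  intro k hk1 hk2 N hN hirr
  obtain ⟨hne, hinv, hmin⟩ := hirr
  have hinv' : Invariant monomialGroup N := fun g _ x hx => hinv g trivial x hx
  refine ⟨hne, hinv', ?_⟩
  intro N' hN' hinvN'
  have hk : k = 1 ∨ k = 2 := by omega
  rcases hk with rfl | rfl
  · rcases L1 hinvN' (hN'.trans hN) with h | h
    · exact Or.inl h
    · right; exact le_antisymm hN' (by rw [h]; exact hN)
  · rcases L2 hinvN' (hN'.trans hN) with h | h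
    · exact Or.inl h
    · right; exact le_antisymm hN' (by rw [h]; exact hN)

end Pool.Agent.MP_a1df92_al
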