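import Pool.Agent.Lib.MP_a1df92_al.Defs

set_option autoImplicit false

namespace Pool.Agent.MP_a1df92_al

abbrev V3 := Fin 3 → ZMod 3
abbrev Mat := Matrix (Fin 3) (Fin 3) (ZMod 3)

/-- `g` mapping the axes into the axes is monomial. -/
theorem mem_monomial_of (g : V3 ≃ₗ[ZMod 3] V3) (h : ∀ v ∈ axes, g v ∈ axes) : g ∈ monomialGroup := by
  intro v
  refine ⟨fun hv => ?_, h v⟩
  let f : axes → axes := fun x => ⟨g x, h x x.2⟩
  have hf : Function.Injective f := fun x y hxy => by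
    apply Subtype.ext
    apply g.injective
    exact congrArg Subtype.val hxy
  have hs : Function.Surjective f := Finite.surjective_of_injective hf
  obtain ⟨w, hw⟩ := hs ⟨g v, hv⟩
  have : g w = g v := congrArg Subtype.val hw
  rw [← g.injective this]
  exact w.2

theorem axes_single : ∀ v : V3, v ∈ axes → ∃ i, ∃ c : ZMod 3, v = Pi.single i c := by
  decide +kernel

theorem single_axes : ∀ (i : Fin 3) (c : ZMod 3), (Pi.single i c : V3) ∈ axes := by
  decide +kernel

theorem smul_axes : ∀ (v : V3) (c : ZMod 3), v ∈ axes → c • v ∈ axes := by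
  decide +kernel

/-- `g` mapping the basis vectors into the axes is monomial. -/
theorem mem_monomial_of' (g : V3 ≃ₗ[ZMod 3] V3) (h : ∀ i, g (Pi.single i 1) ∈ axes) :
    g ∈ monomialGroup := by
  apply mem_monomial_of
  intro v hv
  obtain ⟨i, c, rfl⟩ := axes_single v hv
  have : (Pi.single i c : V3) = c • Pi.single i 1 := by
    rw [← Pi.single_smul]; simp
  rw [this, map_smul]
  exact smul_axes _ _ (h i)

/-- The matrices of the elements of a subgroup. -/
def P (L : Subgroup (V3 ≃ₗ[ZMod 3] V3)) (A : Mat) : Prop :=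
  ∃ g ∈ L, LinearMap.toMatrix' (g : V3 →ₗ[ZMod 3] V3) = A

theorem P_mul {L : Subgroup (V3 ≃ₗ[ZMod 3] V3)} {A B : Mat} (hA : P L A) (hB : P L B) :
    P L (A * B) := by
  obtain ⟨g, hg, rfl⟩ := hA
  obtain ⟨h, hh, rfl⟩ := hB
  refine ⟨g * h, mul_mem hg hh, ?_⟩
  rw [← LinearMap.toMatrix'_comp]
  rfl

/-- Invertible matrices whose columns lie on the axes are in `P`. -/
theorem P_of {L : Subgroup (V3 ≃ₗ[ZMod 3] V3)} (hL : monomialGroup ≤ L) (A B : Mat)
    (h1 : A * B = 1) (h2 : B * A = 1) (h3 : ∀ i, (fun a => A a i) ∈ axes) : P L A := by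
  refine ⟨Matrix.toLin'OfInv h2 h1, hL (mem_monomial_of' _ ?_), ?_⟩
  · intro i
    have : (Matrix.toLin'OfInv h2 h1) (Pi.single i 1) = fun a => A a i := by
      show Matrix.toLin' A (Pi.single i 1) = _
      rw [Matrix.toLin'_apply]
      funext a
      simp
    rw [this]
    exact h3 i
  · show LinearMap.toMatrix' (Matrix.toLin' A) = A
    simp

/-- The reflection-like matrix `1 + v φᵀ`. -/
def R (v φ : V3) : Mat := 1 + Matrix.vecMulVec v φ

def full (v : V3) : Prop := ∀ i, v i ≠ 0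

instance : DecidablePred full := fun v => inferInstanceAs (Decidable (∀ i, v i ≠ 0))

theorem diag_mul : ∀ v : V3, full v → Matrix.diagonal v * Matrix.diagonal v = 1 := by
  decide +kernel

theorem diag_axes : ∀ v : V3, ∀ i, (fun a => Matrix.diagonal v a i) ∈ axes := by
  decide +kernel

theorem P_diag {L : Subgroup (V3 ≃ₗ[ZMod 3] V3)} (hL : monomialGroup ≤ L) (v : V3) (hv : full v) :
    P L (Matrix.diagonal v) :=
  P_of hL _ _ (diag_mul v hv) (diag_mul v hv) (diag_axes v)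

/-- the permutation matrix of a transposition -/
def sw (i j : Fin 3) : Mat := (Equiv.swap i j).permMatrix (ZMod 3)

theorem sw_mul : ∀ i j : Fin 3, sw i j * sw i j = 1 := by
  decide +kernel

theorem sw_axes : ∀ i j k: Fin 3, (fun a => sw i j a k) ∈ axes := by
  decide +kernel

theorem P_sw {L : Subgroup (V3 ≃ₗ[ZMod 3] V3)} (hL : monomialGroup ≤ L) (i j : Fin 3) :
    P L (sw i j) :=
  P_of hL _ _ (sw_mul i j) (sw_mul i j) (sw_axes i j)

theorem P.congr {L : Subgroup (V3 ≃ₗ[ZMod 3] V3)} {A B : Mat} (h : P L A) (hAB : A = B) : P L B :=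
  hAB ▸ h

/-- Monomial matrices used in the words below. -/
def m0 : Mat := !![0, 0, 1; 1, 0, 0; 0, 2, 0]
def m1 : Mat := !![0, 1, 0; 1, 0, 0; 0, 0, 1]
def m2 : Mat := !![0, 1, 0; 1, 0, 0; 0, 0, 2]
def m3 : Mat := !![1, 0, 0; 0, 0, 1; 0, 1, 0]
def m4 : Mat := !![1, 0, 0; 0, 0, 1; 0, 2, 0]
def m5 : Mat := !![1, 0, 0; 0, 0, 2; 0, 1, 0]
def m6 : Mat := !![1, 0, 0; 0, 1, 0; 0, 0, 2]
def m7 : Mat := !![1, 0, 0; 0, 2, 0; 0, 0, 1]
def m8 : Mat := !![1, 0, 0; 0, 2, 0; 0, 0, 2]
def m9 : Mat := !![2, 0, 0; 0, 1, 0; 0, 0, 1]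
def m10 : Mat := !![2, 0, 0; 0, 2, 0; 0, 0, 1]
def m11 : Mat := !![2, 0, 0; 0, 2, 0; 0, 0, 2]

theorem P_m0 {L : Subgroup (V3 ≃ₗ[ZMod 3] V3)} (hL : monomialGroup ≤ L) : P L m0 :=
  P_of hL _ m0.transpose (by decide +kernel) (by decide +kernel) (by decide +kernel)
theorem P_m1 {L : Subgroup (V3 ≃ₗ[ZMod 3] V3)} (hL : monomialGroup ≤ L) : P L m1 :=
  P_of hL _ m1.transpose (by decide +kernel) (by decide +kernel) (by decide +kernel)
theorem P_m2 {L : Subgroup (V3 ≃ₗ[ZMod 3] V3)} (hL : monomialGroup ≤ L) : P L m2 :=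
  P_of hL _ m2.transpose (by decide +kernel) (by decide +kernel) (by decide +kernel)
theorem P_m3 {L : Subgroup (V3 ≃ₗ[ZMod 3] V3)} (hL : monomialGroup ≤ L) : P L m3 :=
  P_of hL _ m3.transpose (by decide +kernel) (by decide +kernel) (by decide +kernel)
theorem P_m4 {L : Subgroup (V3 ≃ₗ[ZMod 3] V3)} (hL : monomialGroup ≤ L) : P L m4 :=
  P_of hL _ m4.transpose (by decide +kernel) (by decide +kernel) (by decide +kernel)
theorem P_m5 {L : Subgroup (V3 ≃ₗ[ZMod 3] V3)} (hL : monomialGroup ≤ L) : P L m5 :=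
  P_of hL _ m5.transpose (by decide +kernel) (by decide +kernel) (by decide +kernel)
theorem P_m6 {L : Subgroup (V3 ≃ₗ[ZMod 3] V3)} (hL : monomialGroup ≤ L) : P L m6 :=
  P_of hL _ m6.transpose (by decide +kernel) (by decide +kernel) (by decide +kernel)
theorem P_m7 {L : Subgroup (V3 ≃ₗ[ZMod 3] V3)} (hL : monomialGroup ≤ L) : P L m7 :=
  P_of hL _ m7.transpose (by decide +kernel) (by decide +kernel) (by decide +kernel)
theorem P_m8 {L : Subgroup (V3 ≃ₗ[ZMod 3] V3)} (hL : monomialGroup ≤ L) : P L m8 :=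
  P_of hL _ m8.transpose (by decide +kernel) (by decide +kernel) (by decide +kernel)
theorem P_m9 {L : Subgroup (V3 ≃ₗ[ZMod 3] V3)} (hL : monomialGroup ≤ L) : P L m9 :=
  P_of hL _ m9.transpose (by decide +kernel) (by decide +kernel) (by decide +kernel)
theorem P_m10 {L : Subgroup (V3 ≃ₗ[ZMod 3] V3)} (hL : monomialGroup ≤ L) : P L m10 :=
  P_of hL _ m10.transpose (by decide +kernel) (by decide +kernel) (by decide +kernel)
theorem P_m11 {L : Subgroup (V3 ≃ₗ[ZMod 3] V3)} (hL : monomialGroup ≤ L) : P L m11 :=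
  P_of hL _ m11.transpose (by decide +kernel) (by decide +kernel) (by decide +kernel)

theorem phi_cases : ∀ φ : V3, φ 0 + φ 1 + φ 2 = 1 → φ = ![0, 0, 1] ∨ φ = ![0, 1, 0] ∨ φ = ![0, 2, 2] ∨ φ = ![1, 0, 0] ∨ φ = ![1, 1, 2] ∨ φ = ![1, 2, 1] ∨ φ = ![2, 0, 2] ∨ φ = ![2, 1, 1] ∨ φ = ![2, 2, 0] := by
  decide +kernel

theorem word {L : Subgroup (V3 ≃ₗ[ZMod 3] V3)} (hL : monomialGroup ≤ L) (φ : V3)
    (hφ : φ 0 + φ 1 + φ 2 = 1) (hP : P L (R (fun _ => 1) φ)) :
    ∃ i j : Fin 3, ∃ c : ZMod 3, i ≠ j ∧ c ≠ 0 ∧ P L (Matrix.transvection i j c) := by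
  rcases phi_cases φ hφ with rfl | rfl | rfl | rfl | rfl | rfl | rfl | rfl | rfl
  · refine ⟨1, 2, 1, by decide, by decide, ?_⟩
    have h := (P_mul (P_mul (P_mul hP (P_m7 hL)) hP) (P_m7 hL))
    refine h.congr ?_
    decide +kernel
  · refine ⟨2, 1, 1, by decide, by decide, ?_⟩
    have h := (P_mul (P_mul (P_mul hP (P_m6 hL)) hP) (P_m6 hL))
    refine h.congr ?_
    decide +kernel
  · refine ⟨0, 1, 2, by decide, by decide, ?_⟩
    have h := (P_mul (P_mul (P_mul hP (P_m6 hL)) hP) (P_m7 hL))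
    refine h.congr ?_
    decide +kernel
  · refine ⟨2, 0, 1, by decide, by decide, ?_⟩
    have h := (P_mul (P_mul (P_mul hP (P_m6 hL)) hP) (P_m6 hL))
    refine h.congr ?_
    decide +kernel
  · refine ⟨1, 2, 2, by decide, by decide, ?_⟩
    have h := (P_mul (P_mul (P_mul (P_mul (P_mul (P_mul (P_mul hP (P_m3 hL)) hP) (P_m4 hL)) hP) (P_m0 hL)) hP) (P_m10 hL))
    refine h.congr ?_
    decide +kernel
  · refine ⟨2, 1, 2, by decide, by decide, ?_⟩
    have h := (P_mul (P_mul (P_mul (P_mul (P_mul (P_mul (P_mul hP (P_m3 hL)) hP) (P_m5 hL)) hP) (P_m2 hL)) hP) (P_m11 hL))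
    refine h.congr ?_
    decide +kernel
  · refine ⟨1, 0, 2, by decide, by decide, ?_⟩
    have h := (P_mul (P_mul (P_mul hP (P_m6 hL)) hP) (P_m9 hL))
    refine h.congr ?_
    decide +kernel
  · refine ⟨1, 0, 2, by decide, by decide, ?_⟩
    have h := (P_mul (P_mul (P_mul (P_mul (P_mul (P_mul (P_mul hP (P_m1 hL)) hP) (P_m2 hL)) hP) (P_m1 hL)) hP) (P_m8 hL))
    refine h.congr ?_
    decide +kernel
  · refine ⟨2, 0, 2, by decide, by decide, ?_⟩
    have h := (P_mul (P_mul (P_mul hP (P_m7 hL)) hP) (P_m9 hL))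
    refine h.congr ?_
    decide +kernel

theorem conj_diag : ∀ v φ : V3, full v →
    Matrix.diagonal v * R v φ * Matrix.diagonal v = R (fun _ => 1) (fun i => φ i * v i) := by
  decide +kernel

theorem word' {L : Subgroup (V3 ≃ₗ[ZMod 3] V3)} (hL : monomialGroup ≤ L) (v φ : V3)
    (hv : full v) (hφ : φ 0 * v 0 + φ 1 * v 1 + φ 2 * v 2 = 1) (hP : P L (R v φ)) :
    ∃ i j : Fin 3, ∃ c : ZMod 3, i ≠ j ∧ c ≠ 0 ∧ P L (Matrix.transvection i j c) := by
  apply word hL (fun i => φ i * v i) hφ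
  rw [← conj_diag v φ hv]
  exact P_mul (P_mul (P_diag hL v hv) hP) (P_diag hL v hv)

/-- permutation matrices -/
def pm (σ : Equiv.Perm (Fin 3)) : Mat := Matrix.of fun a b => if a = σ b then 1 else 0

theorem pm_mul : ∀ σ : Equiv.Perm (Fin 3), pm σ * (pm σ).transpose = 1 ∧
    (pm σ).transpose * pm σ = 1 ∧ ∀ i, (fun a => pm σ a i) ∈ axes := by
  decide +kernel

theorem P_pm {L : Subgroup (V3 ≃ₗ[ZMod 3] V3)} (hL : monomialGroup ≤ L) (σ : Equiv.Perm (Fin 3)) :
    P L (pm σ) := P_of hL _ _ (pm_mul σ).1 (pm_mul σ).2.1 (pm_mul σ).2.2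

theorem P_pm' {L : Subgroup (V3 ≃ₗ[ZMod 3] V3)} (hL : monomialGroup ≤ L) (σ : Equiv.Perm (Fin 3)) :
    P L (pm σ).transpose := by
  have : (pm σ).transpose = pm σ⁻¹ := by
    revert σ; decide +kernel
  rw [this]
  exact P_pm hL _

theorem pm_conj : ∀ (σ : Equiv.Perm (Fin 3)) (i j : Fin 3) (c : ZMod 3),
    pm σ * Matrix.transvection i j c * (pm σ).transpose = Matrix.transvection (σ i) (σ j) c := by
  decide +kernel

theorem perm_trans : ∀ i j i' j' : Fin 3, i ≠ j → i' ≠ j' →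
    ∃ σ : Equiv.Perm (Fin 3), σ i = i' ∧ σ j = j' := by
  decide +kernel

theorem transvection_pow : ∀ (i j : Fin 3) (c c' : ZMod 3), i ≠ j → c ≠ 0 → 
    c' = 0 ∨ c' = c ∨ Matrix.transvection i j c' = 
      Matrix.transvection i j c * Matrix.transvection i j c := by
  decide +kernel

theorem P_one (L : Subgroup (V3 ≃ₗ[ZMod 3] V3)) : P L 1 := 
  ⟨1, one_mem _, by
    show LinearMap.toMatrix' (LinearMap.id) = 1
    simp⟩

theorem P_transvection {L : Subgroup (V3 ≃ₗ[ZMod 3] V3)} (hL : monomialGroup ≤ L) {i j : Fin 3} 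
    {c : ZMod 3} (hij : i ≠ j) (hc : c ≠ 0) (h : P L (Matrix.transvection i j c)) 
    (i' j' : Fin 3) (c' : ZMod 3) (hij' : i' ≠ j') : P L (Matrix.transvection i' j' c') := by
  obtain ⟨σ, rfl, rfl⟩ := perm_trans i j i' j' hij hij'
  rw [← pm_conj]
  refine P_mul (P_mul (P_pm hL _) ?_) (P_pm' hL _)
  rcases transvection_pow i j c c' hij hc with rfl | rfl | h'
  · rw [Matrix.transvection_zero]
    exact P_one L
  · exact h
  · rw [h']
    exact P_mul h h

theorem diag_full : ∀ v : V3, (Matrix.diagonal v).det ≠ 0 → full v := by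
  intro v hv i hi
  apply hv
  rw [Matrix.det_diagonal]
  exact Finset.prod_eq_zero (Finset.mem_univ i) hi

theorem eq_top {L : Subgroup (V3 ≃ₗ[ZMod 3] V3)} (hL : monomialGroup ≤ L) {i j : Fin 3} 
    {c : ZMod 3} (hij : i ≠ j) (hc : c ≠ 0) (h : P L (Matrix.transvection i j c)) : L = ⊤ := by
  rw [eq_top_iff]
  intro g _
  have hdet : (LinearMap.toMatrix' (g : V3 →ₗ[ZMod 3] V3)).det ≠ 0 := by
    rw [LinearMap.det_toMatrix']
    exact (LinearEquiv.isUnit_det' g).ne_zero
  have hP : P L (LinearMap.toMatrix' (g : V3 →ₗ[ZMod 3] V3)) := by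
    refine Matrix.diagonal_transvection_induction_of_det_ne_zero (P L) _ hdet ?_ ?_ ?_
    · intro D hD
      exact P_diag hL D (diag_full D hD)
    · intro t
      exact P_transvection hL hij hc h _ _ _ t.hij
    · intro A B _ _ hA hB
      exact P_mul hA hB
  obtain ⟨g', hg', hgg⟩ := hP
  have : g' = g := by
    apply LinearEquiv.toLinearMap_injective
    exact LinearMap.toMatrix'.injective hgg
  exact this ▸ hg'

/-- the dot product, linear in the second variable -/
def dot (u : V3) : V3 →ₗ[ZMod 3] ZMod 3 where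
  toFun v := u 0 * v 0 + u 1 * v 1 + u 2 * v 2
  map_add' v w := by simp only [Pi.add_apply]; ring
  map_smul' c v := by simp only [Pi.smul_apply, smul_eq_mul, RingHom.id_apply]; ring

/-- the orthogonal reflection in `u` -/
def reflMap (u : V3) : V3 →ₗ[ZMod 3] V3 where
  toFun x := x + (dot u u * dot u x) • u
  map_add' v w := by rw [map_add, mul_add, add_smul]; abel
  map_smul' c v := by rw [map_smul, smul_eq_mul, RingHom.id_apply, smul_add, smul_smul]; congr 2; ring

theorem reflMap_inv : ∀ u : V3, dot u u ≠ 0 → ∀ x, reflMap u (reflMap u x) = x := by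
  decide +kernel

def refl (u : V3) (h : dot u u ≠ 0) : V3 ≃ₗ[ZMod 3] V3 :=
  LinearEquiv.ofInvolutive (reflMap u) (reflMap_inv u h)

theorem refl_mem (u : V3) (h : dot u u ≠ 0) : refl u h ∈ monomialGroup := by
  have key : ∀ u : V3, dot u u ≠ 0 → ∀ i, reflMap u (Pi.single i 1) ∈ axes := by
    decide +kernel
  exact mem_monomial_of' _ (key u h)

theorem dot_sq : ∀ u : V3, dot u u ≠ 0 → dot u u * dot u u = 1 := by
  decide +kernel

theorem sum_single (v : V3) : v = v 0 • Pi.single 0 1 + v 1 • Pi.single 1 1 + v 2 • Pi.single 2 1 := by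
  revert v; decide +kernel

theorem P_conj {L : Subgroup (V3 ≃ₗ[ZMod 3] V3)} (hL : monomialGroup ≤ L) 
    {g : V3 ≃ₗ[ZMod 3] V3} (hg : g ∈ L) (u : V3) (hu : dot u u ≠ 0) (hf : full (g u)) : L = ⊤ := by
  let φ : V3 := fun j => dot u u * dot u (g.symm (Pi.single j 1))
  have hφ : φ 0 * (g u) 0 + φ 1 * (g u) 1 + φ 2 * (g u) 2 = 1 := by
    have h1 : dot u u * dot u (g.symm (g u)) = 1 := by
      rw [LinearEquiv.symm_apply_apply]; exact dot_sq u hu
    rw [sum_single (g u)] at h1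
    simp only [map_add, map_smul, smul_eq_mul] at h1
    rw [← h1]
    ring
  have hmem : g * refl u hu * g⁻¹ ∈ L := mul_mem (mul_mem hg (hL (refl_mem u hu))) (inv_mem hg)
  have hP : P L (R (g u) φ) := by
    refine ⟨_, hmem, ?_⟩
    ext i j
    rw [LinearMap.toMatrix'_apply]
    have : (g * refl u hu * g⁻¹) (Pi.single j 1) = 
        Pi.single j 1 + φ j • g u := by
      show g (reflMap u (g.symm (Pi.single j 1))) = _
      show g (g.symm (Pi.single j 1) + (dot u u * dot u (g.symm (Pi.single j 1))) • u) = _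
      rw [map_add, map_smul, LinearEquiv.apply_symm_apply]
    rw [LinearEquiv.coe_coe, this]
    simp only [R, Matrix.add_apply, Matrix.vecMulVec_apply, Pi.add_apply, Pi.smul_apply, 
      smul_eq_mul, Matrix.one_apply, Pi.single_apply]
    ring
  obtain ⟨i, j, c, hij, hc, h⟩ := word' hL (g u) φ hf hφ hP
  exact eq_top hL hij hc h

theorem two_dim : ∀ v w : V3, ∀ l : Fin 3, v l = 0 → (∀ j, j ≠ l → v j ≠ 0) → ¬ full w → 
    ¬ full (v + w) → ¬ full (v - w) → w l = 0 := by
  decide +kernel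

theorem not_axes : ∀ v : V3, v ∉ axes → full v ∨ ∃ l, v l = 0 ∧ ∀ j, j ≠ l → v j ≠ 0 := by
  decide +kernel

theorem dot_single : ∀ i : Fin 3, dot (Pi.single i 1) (Pi.single i 1) ≠ 0 := by
  decide +kernel

theorem dot_add : ∀ i j : Fin 3, i ≠ j → dot (Pi.single i 1 + Pi.single j 1) 
    (Pi.single i 1 + Pi.single j 1) ≠ 0 ∧ dot (Pi.single i 1 - Pi.single j 1) 
    (Pi.single i 1 - Pi.single j 1) ≠ 0 := by
  decide +kernel

theorem monomial_maximal : IsCoatom monomialGroup := by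
  constructor
  · intro h
    have hP : P monomialGroup (Matrix.transvection 0 1 1) := by
      rw [h]
      refine ⟨Matrix.toLin'OfInv (M := Matrix.transvection 0 1 2) (M' := Matrix.transvection 0 1 1)
        (by decide +kernel) (by decide +kernel), trivial, ?_⟩
      show LinearMap.toMatrix' (Matrix.toLin' (Matrix.transvection (0 : Fin 3) 1 (1 : ZMod 3))) = _
      simp
    obtain ⟨g, hg, hgm⟩ := hP
    have h1 : g (Pi.single 1 1) ∈ axes := (hg _).mpr (single_axes 1 1)
    have h2 : g (Pi.single 1 1) = (Matrix.transvection (0 : Fin 3) 1 (1 : ZMod 3)).mulVec 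
        (Pi.single 1 1) := by
      rw [← hgm]
      rw [← Matrix.toLin'_apply, Matrix.toLin'_toMatrix']
      rfl
    rw [h2] at h1
    revert h1
    decide +kernel
  · intro L hL
    obtain ⟨hle, hne⟩ := SetLike.lt_iff_le_and_exists.mp hL
    obtain ⟨g, hg, hgm⟩ := hne
    by_contra htop
    have hnf : ∀ u, dot u u ≠ 0 → ¬ full (g u) := fun u hu hf => htop (P_conj hle hg u hu hf)
    have : ∃ i, g (Pi.single i 1) ∉ axes := by
      by_contra hcon
      push Not at hcon
      exact hgm (mem_monomial_of' g hcon)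
    obtain ⟨i, hi⟩ := this
    rcases not_axes _ hi with hf | ⟨l, hl, hl'⟩
    · exact hnf _ (dot_single i) hf
    have hz : ∀ m, g (Pi.single m 1) l = 0 := by
      intro m
      by_cases hmi : m = i
      · rw [hmi]; exact hl
      · refine two_dim _ _ l hl hl' (hnf _ (dot_single m)) ?_ ?_
        · rw [← map_add]
          exact hnf _ (dot_add i m (Ne.symm hmi)).1
        · rw [← map_sub]
          exact hnf _ (dot_add i m (Ne.symm hmi)).2
    have hz' : ∀ v, g v l = 0 := by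
      intro v
      rw [sum_single v]
      simp only [map_add, map_smul, Pi.add_apply, Pi.smul_apply, hz, smul_zero, add_zero]
    have := hz' (g.symm (Pi.single l 1))
    rw [LinearEquiv.apply_symm_apply, Pi.single_eq_same] at this
    exact one_ne_zero this

end Pool.Agent.MP_a1df92_al
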