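import Pool.Agent.Lib.MP_a1df92_al.Calc

set_option autoImplicit false

namespace Pool.Agent.MP_a1df92_al

section ring

set_option linter.unusedSectionVars false

variable {A : Type} [Ring A] [Algebra F3 A]

theorem B_self (x z : A) : B x x z = 0 := by simp [B]
theorem B_swap (x y z : A) : B y x z = - B x y z := by unfold B; noncomm_ring
theorem B_120 (x y z : A) : B y z x = B x z y - B x y z := by unfold B; noncomm_ring
theorem B_201 (x y z : A) : B z x y = - B x z y := by unfold B; noncomm_ring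
theorem B_210 (x y z : A) : B z y x = B x y z - B x z y := by unfold B; noncomm_ring
theorem B_add1 (x x' y z : A) : B (x + x') y z = B x y z + B x' y z := by unfold B; noncomm_ring
theorem B_add2 (x y y' z : A) : B x (y + y') z = B x y z + B x y' z := by unfold B; noncomm_ring
theorem B_add3 (x y z z' : A) : B x y (z + z') = B x y z + B x y z' := by unfold B; noncomm_ring
theorem B_smul1 (c : F3) (x y z : A) : B (c • x) y z = c • B x y z := by
  simp only [B, smul_mul_assoc, mul_smul_comm, smul_sub, sub_mul, mul_sub]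
theorem B_smul2 (c : F3) (x y z : A) : B x (c • y) z = c • B x y z := by
  simp only [B, smul_mul_assoc, mul_smul_comm, smul_sub, sub_mul, mul_sub]
theorem B_smul3 (c : F3) (x y z : A) : B x y (c • z) = c • B x y z := by
  simp only [B, smul_mul_assoc, mul_smul_comm, smul_sub, sub_mul, mul_sub]
theorem B_neg1 (x y z : A) : B (-x) y z = - B x y z := by unfold B; noncomm_ring
theorem B_neg2 (x y z : A) : B x (-y) z = - B x y z := by unfold B; noncomm_ring
theorem B_neg3 (x y z : A) : B x y (-z) = - B x y z := by unfold B; noncomm_ring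

end ring

/-- `[e_i, e_j, e_j]` -/
noncomputable def E (i j : Fin 3) : T3 := B (X i) (X j) (X j)
/-- `[e_0, e_1, e_2]` -/
noncomputable def a : T3 := B (X 0) (X 1) (X 2)
/-- `[e_0, e_2, e_1]` -/
noncomputable def b : T3 := B (X 0) (X 2) (X 1)

noncomputable def rep (α : Fin 3 → Fin 3 → F3) (γ₁ γ₂ : F3) : T3 :=
  (∑ i, ∑ j, α i j • E i j) + (γ₁ • a + γ₂ • b)

theorem E_self (i : Fin 3) : E i i = 0 := B_self _ _

theorem rep_add (α α' : Fin 3 → Fin 3 → F3) (γ₁ γ₂ γ₁' γ₂' : F3) :
    rep α γ₁ γ₂ + rep α' γ₁' γ₂' = rep (fun i j => α i j + α' i j) (γ₁ + γ₁') (γ₂ + γ₂') := by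
  simp only [rep, add_smul, Finset.sum_add_distrib]
  abel

theorem rep_smul (c : F3) (α : Fin 3 → Fin 3 → F3) (γ₁ γ₂ : F3) :
    c • rep α γ₁ γ₂ = rep (fun i j => c * α i j) (c * γ₁) (c * γ₂) := by
  simp only [rep, smul_add, Finset.smul_sum, smul_smul]

theorem rep_zero : rep (fun _ _ => 0) 0 0 = 0 := by simp [rep]

theorem B_rep (u v w : V3) : B (TensorAlgebra.ι F3 u) (TensorAlgebra.ι F3 v) (TensorAlgebra.ι F3 w) = 
    rep (fun i j => u i * v j * w j - u j * v i * w j) 
      (u 0 * v 1 * w 2 - u 1 * v 0 * w 2 - u 1 * v 2 * w 0 + u 2 * v 1 * w 0)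
      (u 0 * v 2 * w 1 + u 1 * v 2 * w 0 - u 2 * v 0 * w 1 - u 2 * v 1 * w 0) := by
  conv_lhs => rw [sum_single u, sum_single v, sum_single w]
  simp only [map_add, map_smul]
  change B (u 0 • X 0 + u 1 • X 1 + u 2 • X 2) (v 0 • X 0 + v 1 • X 1 + v 2 • X 2) 
    (w 0 • X 0 + w 1 • X 1 + w 2 • X 2) = _
  simp only [B_add1, B_add2, B_add3, B_smul1, B_smul2, B_smul3]
  rw [B_self (X 0), B_self (X 0), B_self (X 0), B_self (X 1), B_self (X 1), B_self (X 1), 
    B_self (X 2), B_self (X 2), B_self (X 2)]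
  rw [B_swap (X 1) (X 0) (X 0), B_swap (X 2) (X 0) (X 0), B_swap (X 0) (X 1) (X 1), 
    B_swap (X 2) (X 1) (X 1), B_swap (X 0) (X 2) (X 2), B_swap (X 1) (X 2) (X 2)]
  rw [B_120 (X 0) (X 1) (X 2), B_201 (X 0) (X 1) (X 2), B_210 (X 0) (X 1) (X 2), 
    B_swap (X 0) (X 1) (X 2)]
  simp only [rep, Fin.sum_univ_three, E_self]
  simp only [E, a, b]
  module

theorem L3_rep (y : T3) (hy : y ∈ liePower F3 V3 3) : ∃ α γ₁ γ₂, y = rep α γ₁ γ₂ := by
  rw [liePower_three] at hy
  induction hy using Submodule.span_induction with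
  | mem x hx => 
    obtain ⟨u, v, w, rfl⟩ := hx
    exact ⟨_, _, _, B_rep u v w⟩
  | zero => exact ⟨_, _, _, rep_zero.symm⟩
  | add x y _ _ hx hy =>
    obtain ⟨α, γ₁, γ₂, rfl⟩ := hx
    obtain ⟨α', γ₁', γ₂', rfl⟩ := hy
    exact ⟨_, _, _, rep_add _ _ _ _ _ _⟩
  | smul c x _ hx =>
    obtain ⟨α, γ₁, γ₂, rfl⟩ := hx
    exact ⟨_, _, _, rep_smul _ _ _ _⟩

/-- The 7-dimensional `GL(V)`-submodule spanned by the `[v, w, w]`. -/
noncomputable def M : Submodule F3 T3 := Submodule.span F3 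
    {x | ∃ v w, x = B (TensorAlgebra.ι F3 v) (TensorAlgebra.ι F3 w) (TensorAlgebra.ι F3 w)}

theorem three_zero : (3 : F3) = 0 := by decide

theorem M_rep (y : T3) (hy : y ∈ M) : ∃ α γ, y = rep α γ γ := by
  unfold M at hy
  induction hy using Submodule.span_induction with
  | mem x hx => 
    obtain ⟨v, w, rfl⟩ := hx
    have h := B_rep v w w
    have h2 : (v 0 * w 1 * w 2 - v 1 * w 0 * w 2 - v 1 * w 2 * w 0 + v 2 * w 1 * w 0) = 
      (v 0 * w 2 * w 1 + v 1 * w 2 * w 0 - v 2 * w 0 * w 1 - v 2 * w 1 * w 0) := by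
      linear_combination (-v 1 * w 0 * w 2 + v 2 * w 0 * w 1) * three_zero
    rw [h2] at h
    exact ⟨_, _, h⟩
  | zero => exact ⟨_, _, rep_zero.symm⟩
  | add x y _ _ hx hy =>
    obtain ⟨α, γ, rfl⟩ := hx
    obtain ⟨α', γ', rfl⟩ := hy
    exact ⟨_, _, rep_add _ _ _ _ _ _⟩
  | smul c x _ hx =>
    obtain ⟨α, γ, rfl⟩ := hx
    exact ⟨_, _, rep_smul _ _ _ _⟩

theorem M_le : M ≤ liePower F3 V3 3 := by
  rw [liePower_three]
  apply Submodule.span_mono
  rintro x ⟨v, w, rfl⟩
  exact ⟨v, w, w, rfl⟩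

/-- sign changes -/
def d (i : Fin 3) : V3 ≃ₗ[ZMod 3] V3 := refl (e i) (dot_single i)

theorem d_mem (i : Fin 3) : d i ∈ monomialGroup := refl_mem _ _

theorem d_e : ∀ i j, d i (e j) = if j = i then - e j else e j := by
  have : ∀ i j : Fin 3, reflMap (e i) (e j) = if j = i then - e j else e j := by decide +kernel
  exact this

theorem act_d_X (i j : Fin 3) : act (d i) (X j) = if j = i then - X j else X j := by
  unfold X
  rw [act_ι, d_e]
  split_ifs
  · rw [map_neg]
  · rfl

theorem act_d_E (i j k : Fin 3) : act (d i) (E j k) = if j = i then - E j k else E j k := by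
  unfold E
  rw [act_B, act_d_X, act_d_X]
  split_ifs <;> simp only [B_neg1, B_neg2, B_neg3, neg_neg]

theorem act_d_a (i : Fin 3) : act (d i) a = - a := by
  unfold a
  rw [act_B, act_d_X, act_d_X, act_d_X]
  fin_cases i <;> simp [B_neg1, B_neg2, B_neg3]

theorem act_d_b (i : Fin 3) : act (d i) b = - b := by
  unfold b
  rw [act_B, act_d_X, act_d_X, act_d_X]
  fin_cases i <;> simp [B_neg1, B_neg2, B_neg3]

/-- the `i`-th row -/
noncomputable def row (α : Fin 3 → Fin 3 → F3) (i : Fin 3) : T3 := ∑ j, α i j • E i j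

theorem rep_eq (α : Fin 3 → Fin 3 → F3) (γ₁ γ₂ : F3) : 
    rep α γ₁ γ₂ = row α 0 + row α 1 + row α 2 + (γ₁ • a + γ₂ • b) := by
  simp only [rep, row, Fin.sum_univ_three]

theorem act_d_row (α : Fin 3 → Fin 3 → F3) (i j : Fin 3) : 
    act (d i) (row α j) = if j = i then - row α j else row α j := by
  unfold row
  rw [map_sum]
  simp only [map_smul, act_d_E]
  split_ifs
  · simp
  · rfl

theorem three_smul_T (x : T3) : (3 : F3) • x = 0 := by rw [three_zero, zero_smul]

theorem act_d_rep (α : Fin 3 → Fin 3 → F3) (γ₁ γ₂ : F3) (i : Fin 3) : 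
    act (d i) (rep α γ₁ γ₂) - rep α γ₁ γ₂ = row α i + (γ₁ • a + γ₂ • b) := by
  rw [rep_eq]
  simp only [map_add, map_smul, act_d_row, act_d_a, act_d_b]
  have h2 := three_smul_T (γ₁ • a)
  have h3 := three_smul_T (γ₂ • b)
  match i with
  | 0 =>
    have h1 := three_smul_T (row α 0)
    simp
    linear_combination (norm := module) (-h1 - h2 - h3)
  | 1 =>
    have h1 := three_smul_T (row α 1)
    simp
    linear_combination (norm := module) (-h1 - h2 - h3)
  | 2 =>
    have h1 := three_smul_T (row α 2)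
    simp
    linear_combination (norm := module) (-h1 - h2 - h3)

theorem mem_parts {N : Submodule F3 T3} (hN : Invariant monomialGroup N) {α : Fin 3 → Fin 3 → F3} 
    {γ₁ γ₂ : F3} (h : rep α γ₁ γ₂ ∈ N) : γ₁ • a + γ₂ • b ∈ N ∧ ∀ i, row α i ∈ N := by
  have h1 : ∀ i, row α i + (γ₁ • a + γ₂ • b) ∈ N := fun i => by
    rw [← act_d_rep]
    exact N.sub_mem (hN _ (d_mem i) _ h) h
  have h2 : γ₁ • a + γ₂ • b ∈ N := by
    have h3 := N.sub_mem (N.sub_mem (N.sub_mem h (h1 0)) (h1 1)) (h1 2)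
    rw [rep_eq] at h3
    have h4 : row α 0 + row α 1 + row α 2 + (γ₁ • a + γ₂ • b) - (row α 0 + (γ₁ • a + γ₂ • b)) - 
      (row α 1 + (γ₁ • a + γ₂ • b)) - (row α 2 + (γ₁ • a + γ₂ • b)) = 
      γ₁ • a + γ₂ • b := by
      linear_combination (norm := module) -(three_smul_T (γ₁ • a + γ₂ • b))
    rwa [h4] at h3
  refine ⟨h2, fun i => ?_⟩
  have h3 := N.sub_mem (h1 i) h2
  rwa [add_sub_cancel_right] at h3

/-- the transvection `e_k ↦ e_k + e_j` -/
def tr (k j : Fin 3) (h : j ≠ k) : V3 ≃ₗ[ZMod 3] V3 where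
  toFun x := x + x k • e j
  invFun x := x - x k • e j
  map_add' x y := by simp only [Pi.add_apply, add_smul]; abel
  map_smul' c x := by simp only [Pi.smul_apply, smul_eq_mul, RingHom.id_apply, smul_add, smul_smul]
  left_inv x := by
    have : (e j) k = 0 := by simp [e, h.symm]
    simp [this]
  right_inv x := by
    have : (e j) k = 0 := by simp [e, h.symm]
    simp [this]

theorem tr_e (k j : Fin 3) (h : j ≠ k) : tr k j h (e k) = e k + e j := by
  show e k + (e k) k • e j = _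
  simp [e]

theorem tr_e' (k j : Fin 3) (h : j ≠ k) (i : Fin 3) (hi : i ≠ k) : tr k j h (e i) = e i := by
  show e i + (e i) k • e j = _
  simp [e, hi.symm]

theorem act_tr (k j : Fin 3) (h : j ≠ k) : act (tr k j h) (X k) = X k + X j := by
  unfold X
  rw [act_ι, tr_e, map_add]

theorem act_tr' (k j : Fin 3) (h : j ≠ k) (i : Fin 3) (hi : i ≠ k) : act (tr k j h) (X i) = X i := by
  unfold X
  rw [act_ι, tr_e' k j h i hi]

/-- `[e_i, e_j, e_k] + [e_i, e_k, e_j]` does not depend on the distinct `i, j, k`. -/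
theorem c_eq : ∀ i j k : Fin 3, i ≠ j → i ≠ k → j ≠ k → 
    B (X i) (X j) (X k) + B (X i) (X k) (X j) = a + b := by
  have h1 := three_smul_T a
  have h2 := three_smul_T b
  have e1 : B (X 1) (X 0) (X 2) = - a := B_swap _ _ _
  have e2 : B (X 1) (X 2) (X 0) = b - a := B_120 _ _ _
  have e3 : B (X 2) (X 0) (X 1) = - b := B_201 _ _ _
  have e4 : B (X 2) (X 1) (X 0) = a - b := B_210 _ _ _
  have f1 : B (X 0) (X 1) (X 2) + B (X 0) (X 2) (X 1) = a + b := rfl
  have f2 : B (X 1) (X 0) (X 2) + B (X 1) (X 2) (X 0) = a + b := by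
    rw [e1, e2]
    linear_combination (norm := module) -h1
  have f3 : B (X 2) (X 0) (X 1) + B (X 2) (X 1) (X 0) = a + b := by
    rw [e3, e4]
    linear_combination (norm := module) -h2
  have g1 : B (X 0) (X 2) (X 1) + B (X 0) (X 1) (X 2) = a + b := by rw [add_comm]; exact f1
  have g2 : B (X 1) (X 2) (X 0) + B (X 1) (X 0) (X 2) = a + b := by rw [add_comm]; exact f2
  have g3 : B (X 2) (X 1) (X 0) + B (X 2) (X 0) (X 1) = a + b := by rw [add_comm]; exact f3
  intro i j k hij hik hjk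
  fin_cases i <;> fin_cases j <;> fin_cases k <;>
    first | exact absurd rfl hij | exact absurd rfl hik | exact absurd rfl hjk | exact f1 
          | exact f2 | exact f3 | exact g1 | exact g2 | exact g3

theorem E_of_c {N : Submodule F3 T3} (hN : Invariant ⊤ N) (hc : a + b ∈ N) (i j : Fin 3) 
    (hij : i ≠ j) : E i j ∈ N := by
  obtain ⟨k, hki, hkj⟩ : ∃ k : Fin 3, i ≠ k ∧ j ≠ k := by revert i j; decide
  have h := c_eq i j k hij hki hkj
  have h1 := N.sub_mem (hN (tr k j hkj) trivial _ hc) hc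
  have h2 : act (tr k j hkj) (a + b) - (a + b) = (2 : F3) • E i j := by
    nth_rewrite 1 [← h]
    rw [map_add, act_B, act_B, act_tr, act_tr' k j hkj i hki, act_tr' k j hkj j hkj, B_add2, B_add3, 
      ← h]
    unfold E
    module
  rw [h2] at h1
  have h3 := N.smul_mem (2 : F3) h1
  rw [smul_smul] at h3
  rwa [show (2 : F3) * 2 = 1 by decide, one_smul] at h3

/-- If a row is in `N` and is nonzero, so is `c`. -/
theorem c_of_E2 {N : Submodule F3 T3} (hN : Invariant ⊤ N) (i j k : Fin 3) 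
    (hij : i ≠ j) (hik : i ≠ k) (hjk : j ≠ k) (s t : F3) (ht : t ≠ 0)
    (h : s • E i j + t • E i k ∈ N) : a + b ∈ N := by
  have h1 := N.sub_mem (hN (tr k j hjk) trivial _ h) h
  have h2 : act (tr k j hjk) (s • E i j + t • E i k) - (s • E i j + t • E i k) = 
      t • (E i j + (a + b)) := by
    unfold E
    rw [map_add, map_smul, map_smul, act_B, act_B, act_tr, act_tr' k j hjk i hik, 
      act_tr' k j hjk j hjk, B_add2, B_add3, B_add3, ← c_eq i j k hij hik hjk]
    module
  rw [h2] at h1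
  have h3 : E i j + (a + b) ∈ N := (N.smul_mem_iff ht).mp h1
  have h4 : E i j + (a + b) = rep (fun i' j' => if i' = i ∧ j' = j then 1 else 0) 1 1 := by
    unfold rep
    simp only [ite_smul, one_smul, zero_smul]
    congr 1
    rw [Finset.sum_eq_single i, Finset.sum_eq_single j]
    · simp
    · intro j' _ hj'; simp [hj']
    · simp
    · intro i' _ hi'; simp [hi']
    · simp
  rw [h4] at h3
  have h5 := (mem_parts (fun g _ x hx => hN g trivial x hx) h3).1
  simpa using h5

end Pool.Agent.MP_a1df92_al
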